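import Pool.Agent.helper12.TY.FinW

/-!
# Divisibility of the alternating sums of Dade's conjecture by powers of `p`, all primes, summed over the defects

Let `p` be any prime, `G` a finite group with `O_p(G) = 1`, `B` a `p`-block of `G` with defect group `D`, `c ≥ 1` and `z` an
element of `Z(D)` such that `z ^ (p ^ (c - 1))` is not in `[D, D]` (for example, `D` is abelian of exponent `p ^ c`). Let `E` be
a finite group with normal subgroup `G`, `A = E / G`, `A_B` the stabiliser of `B` in `A` and `A[B] = E[B] / G` Dade's group.
Let `W ≤ A`, and let `C` be a normal subgroup of `W ∩ A_B` of `p`-power index, generated by `W ∩ A[B]` and an element `s` of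
order `n` prime to `p`; `J2 n` is `n ^ 2` times the product of the `1 - 1 / l ^ 2`, `l` the prime divisors of `n`. For `U ≤ W` let
`S` be the sum, over all `d` and all `V ≤ A` with `V ∩ W = U`, of the alternating sums of the invariant conjecture. Then `p ^ c`
divides `J2 n * S` if `C = W ∩ A_B`, and `p` divides `S` if `p ^ c` does not divide `J2 n`.

* `E = G`: `p ^ c` divides the alternating sum of the numbers `k(N_G(C), B)` over the classes of radical chains (which is `0` by
  the blockwise Alperin weight conjecture in the form of Knörr and Robinson). If `D` is abelian the exponent of `D` divides it.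
* If `(W ∩ A_B) / (W ∩ A[B])` is a `p`-group (`C = W ∩ A[B]`, `s = 1`, `J2 1 = 1`) then `p` divides `S` for every `U ≤ W`.
* If `D` is abelian all characters which are counted have the same defect (Kessar and Malle), so that there is only one `d`.

Sketch of the proof for `c = 1`, `E = G`. Let `x` be a `p`-regular element such that `D` is a Sylow `p`-subgroup of `C_G(x)` and
`omega_B(x) ∉ M`, `z ∈ Z(D)` not in `[D, D]`, `g = z x`, `ζ` the idempotent of `B`, `m` the part of `|G|` prime to `p`, and
`f : D → ℤ / p ^ e` a homomorphism with `f z ≠ 0`. Let `X` be the set of the `(t, y, C)`, `C` a chain of `p`-subgroups of `G`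
with smallest term `1` which is normalised by `t`, `y` and `g`, with the weight `(-1) ^ |C| ζ((t y t⁻¹ y⁻¹ g)⁻¹)`.

* By Frobenius's formula and Brauer's induced blocks the sum of the weights, divided by `|C_G(g)|`, is congruent modulo `M` to
  `omega_B(g) ∑ (-1) ^ |C| k(N_G(C), B)`, and `omega_B(g) ∉ M`, and `|C_G(g)| / |D|` is prime to `p`. The `(t, y, C)` with
  nontrivial stabiliser in `D` are cancelled by changing `C`. It remains to show that the sum of the weights of the free
  `D`-orbits in `X` is `0` modulo `p`.
* The Dehn twists of the torus with two holes, `α (t, y) = (t, y t)`, `β (t, y) = (t y⁻¹, y)`, `γ (t, y) = (t, g t y)`, act on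
  `X` and commute with `D`. They satisfy the braid relations `α β α = β α β`, `γ β γ = β γ β`, `α γ = γ α`, and
  `(α β γ) ^ 4` is the conjugation by `g`. Hence for the transfer `Φ` to `ℤ / p ^ e` (the sum, over the free `D`-orbits, of
  the weight times `f` of the element of `D` by which the permutation moves the representative) one has
  `Φ α = Φ β = Φ γ` and `12 m Φ α = f (z ^ m)` times the sum of the weights of the free orbits.
* `m Φ α = Φ (α ^ m)` is `0`: put `s = t ^ m`, and let `U` be the subgroup of the elements of the centraliser of `t` in
  `N_D(C)` which is obtained from `1` by adjoining repeatedly the elements `u` which commute with `U` and `s` and satisfy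
  `y⁻¹ u y u⁻¹ ∈ U ⟨s⟩`. The class of `(t, y, C)` consists of the conjugates under `D` of the `(t, y b, C)`, `b ∈ U ⟨s⟩`. It has
  `|D| |s|` elements with the same weight (the elements with nontrivial stabilisers are cancelled by a change of the chain),
  `α ^ m` permutes its `|s|` orbits under `D`, and if `α ^ (m i)` is the first power which fixes an orbit, moving the
  representative by `κ`, then `κ ^ (|s| / i) = 1`. So the contribution `(|s| / i) f κ` of the class is `0`.

Induction on `c`, `E = G`. Let `w` be the block of the wreath product `G ≀ C_p` over the block `B ⊗ ... ⊗ B` of `G ^ p`. The `p`-th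
power of `z` is what remains of the diagonal element `(z, ..., z)` in `D / [D, D]`, so `G ≀ C_p`, `w` satisfy the hypothesis for
`c - 1`. Splitting the chains of `p`-subgroups of `G ≀ C_p` at the subgroups which meet `G ^ p` trivially, and Clifford theory for
`G ^ p`, give `p a(w) = a(B) ^ p - a(B) + p ^ 2 a(B) - p ^ 2 (sum of numbers a(B'))` for the alternating sums `a`, with blocks `B'` of
`G` with `omega_B'(g) ∉ M`. If `p ^ (c - 1)` divides all the `a(w)`, `a(B)`, `a(B')` then `p ^ c` divides `a(B)`.

The case of `E`. For a cyclic group `A = E / G` of order `n` prime to `p` and a stable block the theorem for `E` shows that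
`p ^ c` divides the sum of `|U| ^ 2` times the alternating sums for the `U ≤ A`; `|U| ^ 2` is the number of the pairs in `U` and
`J2 n` that of the pairs of generators of `A`, so by induction on `n` it divides `J2 n` times the alternating sum for `A`. A `p`-group
acts on the classes of pairs `(C, ψ)` which are fixed by a normal subgroup; `A[B]` fixes every pair `(C, ψ)` of the block; then
Möbius inversion over the subgroups of `W`.
-/

set_option autoImplicit false

open Pool.Agent.helper58.DC Pool.Agent.MAPW
open Pool.Agent.MAP (DefectGroup)
open Pool.Agent.BQ (AB)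

namespace Pool.Agent.Results.MP_baa4d7_al.AllPrimes

theorem result (p : ℕ) (hpr : p.Prime) (M : Ideal (integralClosure ℤ ℂ)) (hM : M.IsMaximal)
    (hp : (p : integralClosure ℤ ℂ) ∈ M) (G : Type) [Group G] [Finite G]
    (hG : IsOp p (⊤ : Subgroup G) ⊥) (χ : G → ℂ) (hχ : χ ∈ Irr G) (D : Subgroup G)
    (hD : DefectGroup p M χ D) (c : ℕ) (hz : CentreOut p c D) (E A : Type) [Group E] [Group A]
    [Finite E] (X : Extension G E A) (W C : Subgroup A) (s : A) (hW : Adm X p M χ W C s)
    (U : Subgroup A) (hU : U ≤ W) :
    (C = W ⊓ AB X M χ → (p : ℤ) ^ c ∣ (J2 (orderOf s) : ℤ) *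
      ∑ᶠ d : ℤ, ∑ᶠ V : {V : Subgroup A // V ⊓ W = U}, altSum X p M χ d V.1) ∧
    (¬ p ^ c ∣ J2 (orderOf s) →
      (p : ℤ) ∣ ∑ᶠ d : ℤ, ∑ᶠ V : {V : Subgroup A // V ⊓ W = U}, altSum X p M χ d V.1) :=
  Pool.Agent.TY.FinW_main p hpr M hM hp G hG χ hχ D hD c hz E A X W C s hW U hU

end Pool.Agent.Results.MP_baa4d7_al.AllPrimes
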