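import Pool.Agent.helper7.ZE.FinF

/-!
# Dade's invariant conjecture (every `E`, `d`, `U`) for all blocks whose defect group has a large central cyclic subgroup, or a central or abelian subgroup with a dominating invariant

Let `p` be any prime, `G` a finite group with `O_p(G) = 1`, `B` a `p`-block of `G` with defect group `D`, not necessarily abelian. Assume

1. `D` has a central element `z` of order `p ^ e` with `|D : ⟨z⟩| ≤ p ^ m`, `2 m + ⌊m / 2⌋ + 1 ≤ e` (`2 m + ⌊m / 2⌋ + 2 ≤ e` if `p = 2`) and
   `2 m + 5 ≤ e`; or
2. `p` is odd and `D` has an element `y`, not necessarily central, of order `p ^ a` with `|D : ⟨y⟩| ≤ p ^ r`, `6 r + 1 ≤ a` and `5 r + 5 ≤ a`; or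
3. `D` has a central subgroup `Z` of index at most `p ^ a`, of rank at most `r`, with invariants `p ^ n₁ ≥ p ^ n₂ ≥ ...`, and `n₂ ≤ t`, `n₁ > t + a + w + 1`,
   `w = (r + 2) (r (r + 1) / 2 + 2 (a + 2 a r))` (`+ r` if `p = 2`); or
4. `D` has an abelian subgroup `A`, not necessarily central or normal, of index at most `p ^ f` and of rank at most `r`, `1 ≤ r ≤ p - 2`, with
   invariants `p ^ n₁ ≥ p ^ n₂ ≥ ...`, and `n₂ ≤ t`, `c = f (f + 1) / 2 ≤ t`, `n₁ > t + a + w + 1` for `a = f + r c` and this `w`.

So for every `m` only finitely many groups `D` with a central cyclic subgroup of index `p ^ m` are excluded, if `p` is odd for every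
`r` only finitely many groups `D` with a cyclic subgroup of index `p ^ r`, and for all `a` and `r` only the groups `D` with a central subgroup `Z` of index `p ^ a` and
rank `r` whose two largest invariants are near to each other (`n₁ - n₂` bounded by a function of `a` and `r`, for any `n₂`; if `D` is abelian of rank `r` and `p` is odd: all
`D` with `n₁ - n₂ ≥ (r + 2) r (r + 1) / 2 + 2`, so with `n₁ - n₂ ≥ 14` for rank `2`). Then for EVERY group `E` (finite or infinite) with normal subgroup `G`,
EVERY `d` and EVERY subgroup `U` of `E / G` the alternating sum of Dade's invariant conjecture for `B` is zero. Nothing is assumed on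
`E`, on the action of `E` on `B`, on the index `|E : G|` (`p` may divide it) and on the fusion system of `B`; the classification of the finite
simple groups is not used. So there is no restriction in Q1 except that on `D`.

Examples: `D = C_(p ^ e) × Q` or a central product of `C_(p ^ e)` and `Q`, `Q` any group of order at most `p ^ m`, `p` any prime; all
`D` of order `p ^ n`, `n ≥ 11`, `p` odd, with a cyclic subgroup of index `p` (the modular groups); all metacyclic `D` with a cyclic
subgroup of order at least `p ^ (6 r + 4)` and index `p ^ r`, `p` odd; all abelian `D` with one dominating invariant;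
`D = C_(p ^ e) ≀ C_p` is not covered.

Sketch of the proof. First the numbers `l(B)`.

* Unit classes. Let `b` be a block of a subgroup `L` of `G`. A unit class of `b` is the `L`-class of an element `z x`, `z` of order `p ^ e`, `x`
  of order prime to `p`, `z x = x z`, such that `omega_b` is not `0` modulo `M` at its class sum and `|C_L(z x)|_p ≤ p ^ (e + m)`. The
  element `z` is conjugate in `L` to an element of the centre of a defect group of `b`. If `w`, `z` are elements of order `p ^ e` of a
  defect group, `z` central, then `w ^ (p ^ m)` is a power of `z`; so the subgroup `Z₁` of order `p` of `⟨z⟩` does not depend on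
  the unit class, up to conjugation. Unit classes go down to all blocks of the subgroups `K ≤ L` which induce to `b`, and up from the
  blocks of `N_L(Z₁)` with this `Z₁`. There is exactly one block `B₁` of `N_G(Z₁)` with `B₁ ^ G = B` and a unit class with this `Z₁`.
* `l(B) = l(B₁)` for every finite group `G`, by induction on `|G|`. If `Z₁ ≤ O_p(G)` it follows from the theorem of Fong and
  Reynolds for the normal subgroup `C_G(R₁)`, `R₁ = Z(O_p(G))`. Otherwise let `C` be a chain of `p`-subgroups with the smallest term
  `O_p(G)`, and apply the claim to the blocks of `N_G(C) < G`: the alternating sum of the `|N_G(C)| l(N_G(C), B)` becomes a sum over the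
  conjugates `Z'` of `Z₁`, and for fixed `Z'` the chains are paired by adding or removing a term `P Z'`. So the alternating sum
  is `|G| (l(B) - l(B₁))`. It is divisible by `p ^ c |G|`, `c = e - ⌊m / 2⌋` (Lefschetz numbers of complexes of chains over a
  central extension by the `p`-group `Z(O_p(G))`: our theorem AllPrimes). And `1 ≤ l ≤ p ^ (2 m + 1) ≤ p ^ c` (`p ^ (2 m + 2)` if `p = 2`) for
  a block with a unit class `z x`: `l(B)` is at most the number of the `χ` in `B` which are fixed by the Galois automorphisms of
  `p`-power order which fix the roots of unity of order prime to `p`, and the contributions of the elements `z ^ s`, `s ≡ 1` modulo `p`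
  (modulo `4` if `p = 2`), to these `χ` are equal and belong to orthogonal projections with bounded denominators. So `l(B) = l(B₁)`.
* The number of all irreducible characters: `k(B) = k(B₁)`, by Brauer's formula for `k(B)`, applied in `G` and in `N_G(Z₁)`.

Now every defect `d`. Let `q = p ^ 3`, `Z` the subgroup of order `p ^ (m + 3)` of `⟨z⟩`, `C = C_G(Z)`, `H = N_G(Z)`, `L = G` or `L = N_G(Z₁)`, and `X` the set of the
irreducible characters of `C` in blocks which induce to `B` and have a unit class `z' x'` with `Z ≤ ⟨z'⟩`.

* For a linear character `ν` of `Z` let `Λ_ν (g) = ν (u ^ (p ^ (e - 3)))`, `u` the `p`-part of `g ∈ C`, if this power is in `Z`, and `1` otherwise. On a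
  defect group `D'` of a block in `X` the map `u ↦ u ^ (p ^ m)` is the transfer into `⟨z'⟩`, so `Λ_ν` is a linear character of `D'`, trivial
  at the elements `u` with `Z ≰ ⟨u⟩`. Let `Λ` run through the cyclic group of order `q` of these functions. Then `Λ θ ∈ X` for `θ ∈ X`
  (the `*`-construction of Broué and Puig; here with a direct proof, by the local form of Brauer's induction theorem and a
  lemma on the traces of idempotent matrices invariant under a `p`-group), and `Λ θ ≠ θ` for `Λ ≠ 1`.
* `θ - Λ θ` vanishes outside the elements `g` with `Z ≤ ⟨g_p⟩`, a trivial intersection set with normaliser `H`. For `ψ` in `B` (in `B₁` for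
  `L = N_G(Z₁)`) let `D_ψ(θ, Λ) = (ψ, θ - Λ θ)_C`, an integer. Brauer's second main theorem gives the scalar products
  `∑_ψ D_ψ(θ, Λ) D_ψ(θ', Λ') = ∑_t ((θ - Λ θ) ^ t, θ' - Λ' θ')`, `t ∈ (H ∩ L) / C`; and the value of `ψ` at a unit class is a fixed linear function of the
  numbers `D_ψ(θ, Λ)`; it is not `0`.
* The stabiliser in `(H ∩ L) / C` of an orbit of the group of the `Λ` on `X` has order `s` prime to `p`, and fixes some `θ` of the orbit. With `(q - 1) / s ≥ s' + 3`
  (this is why `q = p ^ 3`) a coherence argument gives `D(θ, Λ) = Y - ε e_χ`, with different `χ = χ(θ, Λ)`, orthogonal `Y`, `|Y| ² = s`. So the number of the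
  `ψ` is at most the sum of the `s + (q - 1) / s`, and in case of equality for every `ψ` there are `θ₀ ∈ X` and `ε = ± 1` with
  `D_ψ(θ, Λ) = ε ([θ ∈ H θ₀] - [Λ θ ∈ H θ₀])` for all `θ`, `Λ`, and for every `θ₀ ∈ X` there are exactly `|H_(θ₀) : C| ≤ p - 1` such `ψ`: the set
  `F_L(θ₀)`. So the values at the unit classes up to sign, and the defects of the `ψ ∈ F_L(θ₀)`, depend only on `θ₀`, not on `L`.
* For `L = N_G(Z₁)` there is equality: for the normal subgroup `C_G(Z₁)` with cyclic quotient of order prime to `p` all `s` are `1`, and
  Clifford theory for cyclic quotients bounds the numbers `Y_ψ` for `L` by `1`. For `L = G` there is equality by `k(B) = k(B₁)`. So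
  `k_d(B) = k_d(B₁)` for every `d`, for all finite groups `G`.

Now the stabilisers. Let `N` be a subgroup of the finite group `E`, `B` a block of `N` as above, `N₁ = N_N(Z₁)`, `w ∈ N_E(N) ∩ N_E(Z)`, `ψ ∈ F_N(θ₀)`, `ψ₁ ∈ F_(N₁)(θ₀)`.

* CLAIM: `w` fixes `ψ` if and only if it fixes `ψ₁`. If `w` fixes one of them then it fixes `B` and the `H`-orbit of `θ₀` (the row `D_ψ` determines
  `H θ₀`, as an orbit of the `Λ` has `p ^ 3 > 2 (p - 1)` elements). The `p`-part of `w` acts on the sets `F_L(θ₀)`, which have fewer than `p` elements, so
  trivially. Let `w` be `p`-regular, `N' = N ⟨w⟩`, `C' = C_(N')(Z)`, `H' = N_(N')(Z)`, `L' = L ⟨w⟩` for `L ∈ {N, N₁}`, and let `ψ' ∈ Irr(L')` lie over `ψ ∈ F_L(θ₀)`,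
  with `r` conjugates of `ψ` under `⟨w⟩`. The blocks of `N'` under `ψ'` and over the `θ' ∈ Irr(C')` which lie over the `θ ∈ X` have again unit classes with the
  same `Z`; so there are `θ₀'` and `ε'` for `ψ'`, and `r ε ([θ ∈ H θ₀] - [Λ θ ∈ H θ₀]) = ε' (f(θ) - f(Λ θ))`, where `f(θ)` is the number of the elements of `H' θ₀'` which
  lie over `θ`. In the orbit of `θ₀` under the `Λ` at most `p - 1` elements are in `H θ₀` and at most `p - 1` have `f ≠ 0`; so `r = f(θ₀)`. Multiplication by
  the linear characters of `N' / N` is transitive on the elements of `Irr(C')` over `θ₀` and commutes with `H'`, so `f(θ₀)`, hence `r`, depends only on `θ₀` and `w`, not on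
  `ψ` and `L`.
* COROLLARY. For `N ≤ Δ ≤ N_E(N)` the number of the `Δ`-invariant characters of defect `d` in `B` is the number of the `N_Δ(Z₁)`-invariant characters
  of defect `d` in `B₁` if `Δ = N N_Δ(Z₁)`, and `0` otherwise.
* Chains. Let `G` be normal in `E`, `O_p(G) = 1`. For a chain `C` of `p`-subgroups of `G` let `Δ = N_E(C)`, `N = Δ ∩ G`. If `E = G Δ` then `|N|` times the number
  of the `Δ`-invariant `ψ ∈ Irr(N)` of defect `d` with `b(ψ) ^ G = B` is a sum over the conjugates `Z'` of `Z₁` of the same numbers for `N_Δ(Z')`, and for fixed
  `Z'` the chains are paired as above. This is Q1 for `U = E / G`; for the inverse image of `U` in place of `E` it gives the sums over the subgroups which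
  contain `U`, so all sums are zero. In Q1 only the image `A₀` of `E` in `Aut(G)` matters, so `E` may be replaced by the finite group `G ⋊ A₀`.
* Case 2: `y ^ (p ^ r)` is central in `D` if `|D : ⟨y⟩| = p ^ r` and `p` is odd.
* Case 3. Let `s = t + a` and `V` the group of the `p ^ t`-th powers of the elements of `Z`: it is cyclic and contains the `p ^ s`-th powers of the elements of
  `D`. So `Z₁ = Ω_1(V)`, the group of the elements of order dividing `p` which are `p ^ s`-th powers in `D`, and the subgroup of order `p ^ (a + 3)` of `V`, generated by a
  power of each `w ∈ D` of order `p ^ e = exp(Z)`, do not depend on `Z` and take the places of `Z₁` and `Z` above. The condition `|C_L(z x)|_p ≤ p ^ (e + m)` for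
  unit classes is replaced by: some defect group of the block is in the class (3). It goes up as in case 1, and down to the blocks of the subgroups
  `K ≤ L` with `C_L(Q) ≤ K` for their defect groups `Q`: then `Q` is, up to conjugation, a subgroup of a defect group `D'` of the block of `L` with `C_(D')(Q) ≤ Q`, so it
  contains `Z(D')`. All normalisers of chains of the NORMAL form (`P_i ≤ N(P_j)` for `j ≤ i`) are such subgroups, and the sums over the normal
  chains and over all chains agree. For `ψ'` over `ψ` in `N' = N ⟨w⟩`, `p` not dividing `|N' : N|`, the defect groups of the block of `ψ'` are those of the block of `ψ`, if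
  it is `N'`-stable. `l(B) = l(B₁)` for this class, also with the bound `l ≤ p ^ w`: see our theorem LargeExponent.
* Case 4: the `p ^ c`-th powers of the elements of `A` are central in `D`: let `β` be an automorphism of order `p` of an abelian `p`-group of rank at most `p - 2`,
  `N = β - 1`. Then `N ^ p = - p N (1 + N V)`, and if `p N ≠ 0` there are `x` and `k` such that the `N ^ j x`, `k < j < k + p`, are a Jordan chain of length `p - 1` in the elements of order
  dividing `p`, a contradiction. So `β` is trivial on the `p`-th powers; induction along a chain of subgroups from `A` to `D`.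
-/

set_option autoImplicit false

open Pool.Agent.helper58.DC
open Pool.Agent.MAP (DefectGroup)
open Pool.Agent.NDS
open Pool.Agent.ZES

namespace Pool.Agent.Results.MP_baa4d7_al.CentralCyclicDefect

theorem result (p : ℕ) (hpr : p.Prime) (M : Ideal (integralClosure ℤ ℂ)) (hM : M.IsMaximal)
    (hp : (p : integralClosure ℤ ℂ) ∈ M) (G : Type) [Group G] [Finite G] (hG : IsOp p (⊤ : Subgroup G) ⊥)
    (χ : G → ℂ) (hχ : χ ∈ Irr G) (D : Subgroup G) (hD : DefectGroup p M χ D)
    (hL : LargeCentral p D ∨ LargeCyclicSubgroup p D ∨ DominatingCentre p D ∨ DominatingAbelian p D)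
    (E A : Type) [Group E] [Group A] (X : Extension G E A) (d : ℤ) (U : Subgroup A) : altSum X p M χ d U = 0 :=
  dade p hpr M hM hp G hG χ hχ D hD hL E A X d U

end Pool.Agent.Results.MP_baa4d7_al.CentralCyclicDefect
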