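import Pool.Agent.helper12.BR.FinE

/-!
# Alperin's weight conjecture for all blocks whose defect group has an abelian subgroup of bounded index and rank

Let `p` be a prime, `G` a finite group with `O_p(G) = 1`, `B` a `p`-block of `G` with defect group `D` (abelian or not). Assume one of the
following:

* (0) (`BoundedCentre`, any prime `p`) `D` has a central subgroup `Z` with `|D : Z| ≤ p ^ a` and of rank at most `r`, `r ≥ 1`, and the exponent
  of `Z` is larger than `p ^ N`, or `|D| > p ^ (a + r N)`. Here `N = r (a + w)`, `w = (r + 2) (r (r + 1) / 2 + 2 (a + 2 a r))`, and `r` more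
  if `p = 2`. Or (`BoundedAbelian`) `D` has an abelian subgroup `A` (not necessarily normal) with `|D : A| ≤ p ^ f` and of rank at most
  `r`, `1 ≤ r ≤ p - 2`, and the exponent of `A` is larger than `p ^ (c + N)`, or `|D| > p ^ (a + r N)`, where `c = f (f + 1) / 2`, `a = f + r c`.
  So for given `p`, `a` (or `f`) and `r` all groups `D` with `|D : Z(D)| ≤ p ^ a` and `Z(D)` of rank at most `r`, or with an abelian
  subgroup of index at most `p ^ f` and rank at most `r ≤ p - 2`, are admitted, except finitely many. Nothing is assumed on the
  fusion system of `B`. (For `r = p - 1` there are infinitely many groups `D` of maximal class with an abelian subgroup of index `p`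
  and rank `r`, and with centre of order `p`.)

or `p > 2`, `D` is abelian, `b` is a block of `C_G(D)` with `b^G = B`, `I = N_G(D, b) / C_G(D)` is the inertial quotient (an
arbitrary group, with an arbitrary action on `D`), and

* (1) `D ≅ C_(p ^ a) × C_(p ^ b)` with `a > b ≥ 1`, or `a = b ≥ 3`, or `a = b = 2` and `I` abelian; or
* (2) `|I| < p ^ k` and `|I| |D : D ^ (p ^ k)| ≤ p ^ c` for some `k`, where `c ≥ 1` and the exponent of `D` is at least `p ^ c`; or
  (nothing has to be assumed on `I`) `D` has rank at most `r`, `r ≥ 1`, and its exponent is at least `p ^ (r (r + 1) ^ 2 / 2)`; or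
* (3) `D` has rank `r ≥ 1`, all invariants of `D` are at least `p ^ j`, `j ≥ 1`, the exponent of `D` is at least
  `p ^ (j (r - 1) + 1)`, and `|I| ≤ (p - 1) p ^ (j - 1)`, or (nothing has to be assumed on `I`) `r ≤ j` and `r (r + 1) < 4 j`; or
* (4) `p |D| ^ 2` is at most the third power of the exponent of `D`, for instance `D ≅ C_(p ^ c) × Q`, `p |Q| ^ 2 ≤ p ^ c`.

Then the sum over all `d` of the alternating sums of Dade's conjecture for `B` is zero, for all finite groups `E` with normal subgroup `G` and
`E_B / E[B]` (Dade's groups) cyclic of order `n` prime to `p`, for instance for `E = G`, and all subgroups `U` of `E / G`, in the case (0)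
and in those cases of (1) - (4) in which nothing is assumed on `I` (`LargeGroup`). In the other cases this is proved if, moreover, `p ^ (v + 1)` does not
divide `J2 n = n ^ 2 ∏ (1 - 1 / l ^ 2)` (over the primes `l` which divide `n`), and the exponent of `D` is larger by the factor `p ^ v`
than required above; for instance if `n = 1`, `v = 0`. For `E = G` this is Alperin's weight conjecture for `B` in the form of Knörr and Robinson.
If `D` is abelian and `p > 2`, each of the sums is zero if `FewNonRegular` holds (for instance if `a > b`, or `I` is abelian, in case (1),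
or if `|I| < p`, or `|I| |D| < p ^ 2 |R|`), or if the heights of the characters in the blocks of the normalisers of the chains are zero, which
is true by the theorem of Kessar and Malle. The classification of the finite simple groups is not used.

Sketch of the proof for (0).

* If `β` is an automorphism of an abelian `p`-group `A` of rank at most `p - 2` and `β ^ p = 1` then `β` is trivial on `A ^ p`: let
  `N = β - 1` (written additively), then `N ^ p = - p N (1 + N V)`. If `p N ≠ 0`, let `j ≥ 1` be maximal with `p N ^ j ≠ 0`, and `p N ^ j x ≠ 0`. Then
  `N ^ (p - 1 + j) x = - p N ^ j x ≠ 0` and `N ^ (p + j) x = 0`, so the elements `N ^ i x`, `j < i < j + p`, of `Ω_1(A)` show that its rank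
  is at least `p - 1`. Let `A` be an abelian subgroup of index `p ^ f` and rank at most `p - 2` of the `p`-group `D`, `A = A_0 < A_1 < ... < A_f = D` with
  `|A_(i + 1) : A_i| = p`. The group of the `p ^ i`-th powers of the elements of `Z(A_i)` is contained in `A` and normal in `A_(i + 1)`, whose elements
  act on it with order at most `p`, so the `p ^ (i + 1)`-th powers of the elements of `Z(A_i)` are in `Z(A_(i + 1))`. Hence `A ^ (p ^ c) ≤ Z(D)`, `c = f (f + 1) / 2`. So
  it is enough to consider central subgroups `Z`.
* Let `θ` be a character of `C_G(D)` in a block `b` with `b^G = B`, and `T` the group of the `d ^ (q ^ 2)`, `d ∈ D`, `q = p ^ a`. It is a subgroup of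
  `Z(D)`, invariant under `N_G(D)`, and strongly closed: if `u ∈ T` and `(⟨u⟩, b_u)`, `(⟨v⟩, b_v)` are conjugate Brauer pairs under
  `(D, b)` then `v ∈ T`. Let `A` be the group of the automorphisms of `T` induced by `N_G(D, b)`, a `p'`-group. For `u ∈ T` let `P_u(χ, ψ)` be the contribution
  of the subsection `(u, b_u)` to the scalar product of `χ` and `ψ`. For every linear character `λ` of `T` the number
  `n_λ(χ, ψ) = |D : T| ^ 2 ∑_(u ∈ T) |C_A(u)| λ(u) P_u(χ, ψ)` is an integer (a Broué-Puig construction for nonabelian `D`): it is integral at
  `p` by an expansion of powers of the block idempotents of the `C_G(Q)` into sums over all Brauer pairs which contain `(Q, e)`, and it is a rational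
  number with a power of `p` as the denominator.
* `l(B)` is at most the number `|X|` of the `χ` in `B` which are fixed by the Galois automorphisms of `p`-power order which fix the roots of unity of
  order prime to `p`. Choose a `ψ ∈ X` of height zero. For `χ ∈ X` the sum of the `n_λ(χ, ψ)` over the `λ` which are trivial on `K`, the `p ^ (h + 1)`-th
  (`p ^ (h + 2)`-th if `p = 2`) powers of elements of `T`, is congruent to `|T| n` modulo `p ^ (h + 1)`, `n = |D : T| ^ 2 |A| P_1(χ, ψ)`, and `|T| n` is not divisible by
  `p ^ (h + 1)` if `|A| |D : T| ^ 2 < p ^ (h + 1)`. So `|X|` is at most `∑_(λ = 1 on K) ∑_χ n_λ(χ, ψ) ^ 2 ≤ |T : K| |D : T| ^ 4 |A| ^ 2`, as the contributions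
  of the classes of `T` are orthogonal projections. As `|A| < p ^ (r (r + 1) / 2)`, `|D : T| ≤ p ^ (a + 2 a r)` and `|T : K| ≤ p ^ (r (h + 1))`, this gives `l(B) ≤ p ^ w`.
* Let `Om j` be the group of the `y ∈ Z` with `y ^ p = 1` which are `p ^ j`-th powers in `Z`. One of the `r` steps `Om (i (a + w)) ≥ Om ((i + 1) (a + w))`,
  `i < r`, is an equality `≠ 1`, since the exponent of `Z` is larger than `p ^ (r (a + w))`. Let `s = i (a + w) + a`. Then `E(D) = Om s` is the set of the `y ∈ D` with
  `y ^ p = 1` which are `p ^ s`-th powers in `D`, and `E(Q) = E(Q₁)` for all subgroups `Q₁ ≤ Q` of `D` which contain their centralisers in `D`.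
  So the defect groups `Q` of the blocks of the subgroups `K` of `G` with `C_G(Q) ≤ K`, which induce to `B`, satisfy the same conditions and `E(Q)` is conjugate to `E = E(D)`.
  There is exactly one block `B₁` of `N_G(E)` with `B₁ ^ G = B` and a defect group `Q` with `E(Q) = E`.
* `l(B) = l(B₁)`, by induction on `|G|`. If `E ≤ O_p(G)` this follows from the theorem of Fong and Reynolds for the normal
  subgroup `C_G(R₁)`, `R₁ = Z(O_p(G))`. Otherwise, for the chains which start at `O_p(G)`, the alternating sum of the
  `|N_C| l(N_C, B)` becomes by induction a sum over the conjugates of `E`, and the chains are paired by adding or removing a term `P E'`; so it is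
  `|G| (l(B) - l(B₁))`. It is divisible by `p ^ (s + w + 1 - a) |G|`: there is a `z ∈ Z` with `z ^ (p ^ (s + w)) ∉ O_p(G)`, and the commutator subgroup of `D` has exponent at most
  `p ^ a` (the theorem of the hand-in `AllPrimes`, for the numbers `l` and relative to `O_p(G)`). As `1 ≤ l(B), l(B₁) ≤ p ^ w` and `s ≥ a`,
  `l(B) = l(B₁)`.
* If `O_p(G) = 1`, the same pairing of chains, with `l = l(B₁)` for all terms, gives the sum zero; the alternating sums of the numbers `k` and `l` agree (Knörr and
  Robinson). The extensions `E` are treated as below.

Sketch of the proof for (1) - (4).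

* Signs. Let `R` be the set of the elements of `D` on which `I` acts regularly. There is an idempotent `i` of the group algebra over the local ring, invariant under `D`, whose image under the Brauer
  homomorphism of `D` is primitive. `β χ u`, `u ∈ D`, the trace of `i u` on the module of `χ`, divided by the degree, is an integral
  combination of characters of `D`, and for `u ∈ R` it is `n u * d^u χ`, `n u` an integer prime to `p`, `d^u χ` the generalised
  decomposition number. Up to signs `ε u`, which depend only on `n u`, and a factor prime to `p`, the `ε u * d^u χ` are congruent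
  modulo every power of `p` to the values of integral combinations of characters of `D`.
* The set `X`. `l(B)` is at most the number of the `χ` in `B` which are fixed by the Galois automorphisms
  `σ` of `p`-power order of the field of the `|G|`-th roots of unity, which fix the roots of unity of order prime to `p`. Let `X` be the
  set of these `χ`.
* The bound `l(B) ≤ |D : K| / p ^ s`, if `K ≤ D ^ (p ^ (h + 1))` is invariant under `I`, `I` acts regularly on an element `u K` of `D / K`
  of order larger than `p ^ s` (or `s = 0`), and `|I| |D| < p ^ (2 h + 2) |R|` (cases (1) and (3)). For `χ ∈ X` let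
  `Z χ u = ∑_(k ∈ K) ε (u k) d^(u k) χ`, a sum over a regular coset. It is divisible by `|K|`, and it is not zero, because it is
  congruent to `|K| ε u d^u χ` modulo `|K| p ^ (h + 1)`, and the heights in `B` are at most `h`. So the average of the `|Z χ|²`
  over the Galois conjugates is at least `|K|²`. By orthogonality `∑_χ |Z χ u|² ≤ |K| |D| / p ^ s`, as the elements
  `u ^ (1 + p i) k` are pairwise not conjugate under `I`.
* The bound `l(B) ≤ p |D : ⟨z⟩| ^ 2`, `z ∈ D` (case (4)). Let `p ^ e` be the order of `z` and `b` the block of `C_G(z)` under `B`. For the `χ ∈ X`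
  let `f χ` be the `b`-part of the function `χ (z v)`, `v ∈ C_G(z)` `p`-regular. It is the same for all `z ^ s`, `s ≡ 1` modulo `p`,
  and the contributions of these elements are orthogonal projections, so the Gram matrix of the functions `f χ` is at most `p ^ (1 - e)`. For
  a character `η` in `b` of height zero the square of the norm of `η` on the `p`-regular elements is at most `p ^ (-e)`, and
  `|D| ⟨f χ, η⟩` is an algebraic integer, for all `χ` different from `0` (central characters). So their number is at most
  `|D| ^ 2 p ^ (1 - 2 e)`.
* The bound `l(B) ≤ |I| |D : K|`, if `K = D ^ (p ^ (h + 1))` and `|I| < p ^ (h + 1)` (case (2)). For `u ∈ D` let `P_u(χ, ψ)` be the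
  contribution of the subsection `(u, b^(C_G(u)))`. For every character `λ` of `D` the number
  `n_λ(χ, ψ) = ∑_(u ∈ D) |C_I(u)| λ(u) P_u(χ, ψ)` is an integer (the multiplicity of `ψ` in the product of Broué and Puig of
  `∑_(t ∈ I) λ^t` and `χ`). It is integral at `p`: one multiplies by a power, with exponent `p ^ N`, of the value of the central
  character of `ψ` at the class sum of the defect group `D`, rotates the factors, and is left with sums over abelian `p`-subgroups `A`
  of `G`, for which it follows from the uniqueness of the Brauer pairs of `A` under a pair of `D`; and a multiple by a power of `p` is a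
  sum of roots of unity which is fixed by the Galois group. Choose a `ψ ∈ X` of height zero. For `χ ∈ X` the integer
  `∑_(λ = 1 on K) n_λ` is congruent to the sum over all `λ`, `|D| |I| P_1(χ, ψ)`, modulo `p ^ (h + 1)`, because the map
  `λ ↦ λ ^ (1 + p)` fixes the `n_λ`, and its orbits on the `λ ≠ 1` on `K` have lengths divisible by `p ^ (h + 1)`; and the last number
  is not divisible by `p ^ (h + 1)` (heights: `p ^ (height) ≤ |I|`). So `n_λ ≠ 0` for some `λ = 1` on `K`. The numbers `|D| P_u` are
  algebraic integers, so `n_λ` is divisible by `|C_I(λ)|`, and the sum of the `n_μ²` over the conjugates `μ` of `λ` under `I` is at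
  least `|I|`. Hence `|X| |I| ≤ ∑_(λ = 1 on K) ∑_χ n_λ² ≤ |D : K| |I|²`, as the `P_u` are orthogonal projections. If the rank of `D`
  is at most `r`, then `|D : K| ≤ p ^ (r (h + 1))` and `|I| < p ^ (r (r + 1) / 2)`.
* The divisibility (the theorem of the hand-in `AllPrimes`, for the numbers `l` and relative to `R₀ = O_p(G)`): if
  `z ^ (p ^ (c - 1)) ∉ R₀` for some `z ∈ D`, the alternating sum of the numbers `|N_C| l(N_C, B)` over the chains which start at `R₀`
  is divisible by `p ^ c |G|`.
* `O_p(G) = 1`. Let `X` be the group of the `x ∈ D` with `x ^ p = 1` which are `p ^ (c - 1)`-th powers in `D`. By induction on `|G|` one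
  proves `l(B) = l(B_X)` for every `G`, `B_X` the block of `N_G(X)` which corresponds to `B`: if `X ≤ O_p(G)` by the theorem of Fong
  and Reynolds, otherwise adding or removing `X` pairs the chains, so the alternating sum is `|G| (l(B) - l(B_X))`, and it is
  divisible by `p ^ c |G|`, while `1 ≤ l(B), l(B_X) ≤ p ^ c`. The alternating sums of the numbers `k` and `l` agree (Knörr and
  Robinson), and the chains are paired again.
* Heights. `d^u χ` is divisible by `p ^ k` for all `u ∈ R`, `k` the height of `χ`; so `|D| |I| ≥ ∑_(u ∈ R) |d^u χ|² ≥ p ^ (2 k) |R|`.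
* Extensions. If `E / G` is cyclic of order prime to `p` and `B` is invariant under `E`, the blocks of `E` over `B` have the defect
  group `D`. If the condition on `D` does not involve `I`, the theorem holds for them, and for the blocks of the groups between `G` and
  `E`. The characters of `N_E(C)` over a character of `N_G(C)` with the stabiliser `V ≤ E / G` are `|V|` extensions, induced to
  `N_E(C)`. So `∑_V |V| ^ 2 a(V) = 0` for the alternating sums `a(V)`, and the same for the subgroups of `E / G`; this implies
  `a(V) = 0` for all `V`. For the other conditions the proof above is repeated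
  with the numbers of the irreducible Brauer characters which are fixed by `s ^ k`: `p ^ (c + v)` divides `J2 n` times the alternating
  sum, so `p ^ c` divides the alternating sum, and the numbers are at most `l(B) ≤ p ^ c`.
-/

set_option autoImplicit false

open Pool.Agent.helper58.DC
open Pool.Agent.BQ (AB AI)
open Pool.Agent.MAP (DefectGroup)
open Pool.Agent.MAPW (J2)
open Pool.Agent.ZBS (BoundedCentre BoundedAbelian)
open Pool.Agent.FIV Pool.Agent.FIL

namespace Pool.Agent.Results.MP_baa4d7_al.LargeExponent

theorem result (p : ℕ) (hpr : p.Prime) (M : Ideal (integralClosure ℤ ℂ)) (hM : M.IsMaximal)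
    (hp : (p : integralClosure ℤ ℂ) ∈ M) (G : Type) [Group G] [Finite G] (hG : IsOp p (⊤ : Subgroup G) ⊥)
    (χ : G → ℂ) (hχ : χ ∈ Irr G) (D : Subgroup G) (hD : DefectGroup p M χ D)
    (E A : Type) [Group E] [Group A] [Finite E] (X : Extension G E A) (s : A) (n v : ℕ) (hn : 0 < n)
    (hsn : s ^ n ∈ AI X M χ) (hpn : ¬ p ∣ n) (hs : ∀ a ∈ AB X M χ, ∃ k : ℤ, s ^ k * a ∈ AI X M χ)
    (hL : BoundedCentre p D ∨ BoundedAbelian p D ∨
      (p ≠ 2 ∧ ∃ θ : G → ℂ, AbelianDefect p M χ D θ ∧
        (LargeGroup p D ∨ (LargeAbelian p M D θ v ∧ ¬ p ^ (v + 1) ∣ J2 n))))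
    (U : Subgroup A) :
    ∑ᶠ d : ℤ, altSum X p M χ d U = 0 ∧
      (p ≠ 2 → ∀ θ : G → ℂ, AbelianDefect p M χ D θ → FewNonRegular p M D θ ∨ HeightZero p M χ D →
        ∀ d : ℤ, altSum X p M χ d U = 0) :=
  Pool.Agent.LE.FinE p hpr M hM hp G hG χ hχ D hD E A X s n v hn hsn hpn hs hL U

end Pool.Agent.Results.MP_baa4d7_al.LargeExponent
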