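import Pool.Agent.helper12.FI5.All5

/-!
# Dade's conjecture for blocks with abelian defect group and small inertial quotient

Let `p` be a prime, `G` a finite group, `B` a `p`-block of `G` with abelian defect group `D`, `b` a block of `C_G(D)` with
`b^G = B`, `I = N_G(D, b) / C_G(D)` the inertial quotient (an arbitrary group, with an arbitrary action on `D`), and `B_N` the block
of `N_G(D)` with `(B_N)^G = B`. Assume one of the following:

* `2 |I| < p`;
* `I` is abelian and `|I| + Ω(|I|) + 1 < p`, `Ω` the number of prime factors, counted with multiplicity;
* `|I| + N + 1 < p`, where `N` subgroups of index `p` of `D` contain all elements of `D` on which `I` does not act regularly (for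
  instance `|I| ≤ p - 2`, if the action is free).

Then:

* all characters of `B` and of `B_N` have height zero, `k(B) = k(B_N)`, `l(B) = l(B_N) ≤ p - 2`;
* if `O_p(G) = 1` and `D ≠ 1`, Dade's conjecture holds for `B`: for `E = G`; for every finite `E` such that `E_B / E[B]` is cyclic,
  all `d` and all `U`; and for every finite `E`, every `a ∈ E / G` and every `d` the sum of the alternating sums over the `U` which
  contain `a` is zero.

Sketch of the proof (the first two conditions imply the third one; induction on `|G|`).

* Heights. There is an idempotent `i` of the group algebra over the local ring, invariant under `D`, whose image under the Brauer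
  homomorphism of `D` is primitive. `β χ u`, `u ∈ D`, the trace of `i u` on the module of `χ`, divided by the degree, is an integral
  combination of characters of `D`, invariant under `I`, and for a regular `u` it is `n u * d^u χ`, `n u` an integer prime to `p`,
  `d^u χ` the generalised decomposition number (the block of `C_G(u)` has the inertial quotient `1`, so it has one Brauer
  character). The orthogonality of the columns and the congruences between the values of the `β χ` show that `d^u χ` is not in the
  maximal ideal, so the heights are zero.
* The bound `l(B) ≤ p - 2`. `l(B)` is the number of the characters `χ` in `B` which are invariant under the Galois automorphisms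
  of the `p`-power roots of unity (Brauer's permutation lemma). For them the `d^u χ`, `u` regular, are integers, and, up to
  signs which depend only on `u`, they are congruent modulo `p ^ 2` to `c + p * ∑ b V`, the sum over the subgroups `V ∋ u` of
  index `p`, `p ∤ c`. If this is not constant modulo `p ^ 2` outside the `N` subgroups, it takes many different values: an argument
  of Chevalley-Warning type, sums over the planes of `D` of products of at most `p - 2` affine functions; then
  `∑ (d^u χ)²` is larger than `|I| |D|`, which contradicts Bessel's inequality. So it is congruent to `κ χ`, `0 < |κ χ| < p / 2`. If there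
  were `p - 1` such characters, the combination with the signs of the `κ χ` as coefficients would contradict Bessel's inequality.
* `l(B) = l(B_N)`. Take the alternating sum, over the chains of `p`-subgroups which start at `O_p(G)`, of the numbers `l` for the
  normalisers of the chains. Adding or removing the defect group pairs the chains, and the induction hypothesis for the
  normalisers leaves `l(B) - l(B_N)`. By the divisibility theorem of the hand-in `AllPrimes` in the form for the numbers `l` and
  relative to `O_p(G)`, it is divisible by `p`. As `1 ≤ l(B), l(B_N) ≤ p - 2` the two numbers are equal.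
* Dade's conjecture for `E = G` and `k(B) = k(B_N)`: the numbers `k` are sums of the numbers `l` of the centralisers of the `p`-elements,
  and in the alternating sum the chains are paired again.
* Extensions. The same with the traces of the elements `a` of `E_B / E[B]` on the space of the Brauer characters. The difference of the
  traces for `B` and `B_N` is an integer divisible by `p`, of absolute value at most `p - 2` or, in general, at most `2 (p - 2)`; the
  integrality of the multiplicities shows that it is zero. If `E_B / E[B]` is cyclic, these sums determine the numbers for all `U`.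
-/

set_option autoImplicit false

open Pool.Agent.helper58.DC
open Pool.Agent.BQ (AB AI)
open Pool.Agent.FIV
open Pool.Agent.FI5.All5

namespace Pool.Agent.Results.MP_baa4d7_al.SmallInertialQuotient

theorem result (p : ℕ) (hpr : p.Prime) (M : Ideal (integralClosure ℤ ℂ)) (hM : M.IsMaximal)
    (hp : (p : integralClosure ℤ ℂ) ∈ M) (G : Type) [Group G] [Finite G]
    (χ : G → ℂ) (hχ : χ ∈ Irr G) (D : Subgroup G) (θ : G → ℂ)
    (h : SmallQuotient p M χ D θ) :
    (IsOp p (⊤ : Subgroup G) ⊥ → D ≠ ⊥ → ∀ (E A : Type) [Group E] [Group A] [Finite E] (X : Extension G E A),
      ((∃ s : A, ∀ a ∈ AB X M χ, ∃ k : ℤ, s ^ k * a ∈ AI X M χ) →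
        ∀ (d : ℤ) (U : Subgroup A), altSum X p M χ d U = 0) ∧
      ∀ (a : A) (d : ℤ), ∑ᶠ U : {U : Subgroup A // a ∈ U}, altSum X p M χ d U.1 = 0) ∧
    (∀ a : ℕ, Nat.card D = p ^ a →
      (∀ ψ ∈ Irr G, Induces M ψ χ → Defect p ⊤ ψ a) ∧
      ∀ ψ ∈ IrrOn (Subgroup.normalizer (D : Set G)), Induces M ψ χ →
        Defect p (Subgroup.normalizer (D : Set G)) ψ a) ∧
    Nat.card {ψ : G → ℂ // ψ ∈ Irr G ∧ Induces M ψ χ} =
      Nat.card {ψ : G → ℂ // ψ ∈ IrrOn (Subgroup.normalizer (D : Set G)) ∧ Induces M ψ χ} ∧
    brauerNumber p M χ ⊤ = brauerNumber p M χ (Subgroup.normalizer (D : Set G)) ∧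
    brauerNumber p M χ ⊤ + 1 < p :=
  ⟨fun hG hD E A _ _ _ X => Pool.Agent.FI5.Fin5_dade aBH2 aDSE5 aDSC5 p hpr M hM hp G χ hχ D θ h hG hD E A X,
    fun a ha => Pool.Agent.FI5.Fin5_ht aBH2 aBHT aHN2 p hpr M hM hp G χ hχ D θ h a ha,
    Pool.Agent.FI5.Fin5_k aBH2 aAM2 p hpr M hM hp G χ hχ D θ h,
    Pool.Agent.FI5.Fin5_l aBH2 aMN2 aBBD aXL p hpr M hM hp G χ hχ D θ h⟩

end Pool.Agent.Results.MP_baa4d7_al.SmallInertialQuotient
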